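import Pool.Agent.W601.SQ.Stm

/-! # Project SQ (helper601), part FAC: continuous functions on dense subsets of `ℝ → Circle`
depend on countably many coordinates -/

set_option autoImplicit false
open scoped Classical Cardinal
open Filter Topology

namespace Pool.Agent.W723.SQ

open Pool.Agent.W601.SQ

noncomputable section

/-- descriptions of basic open sets -/
abbrev T := Finset ℝ × (ℝ → Circle) × ℝ

/-- basic open sets -/
def O (p : T) : Set (ℝ → Circle) := {w | ∀ β ∈ p.1, dist (w β) (p.2.1 β) < p.2.2}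

theorem O_open (p : T) : IsOpen (O p) := by
  have e : O p = ⋂ β ∈ p.1, {w : ℝ → Circle | dist (w β) (p.2.1 β) < p.2.2} := by
    ext w; simp [O]
  rw [e]
  exact isOpen_biInter_finset fun β _ =>
    isOpen_lt ((continuous_apply β).dist continuous_const) continuous_const

theorem exists_pos (I : Finset ℝ) (e : ℝ → ℝ) (h : ∀ a ∈ I, 0 < e a) :
    ∃ r : ℝ, 0 < r ∧ ∀ a ∈ I, r ≤ e a := by
  induction I using Finset.induction_on with
  | empty => exact ⟨1, one_pos, fun a ha => absurd ha (Finset.notMem_empty a)⟩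
  | insert b I _ ih =>
    obtain ⟨r, hr, h2⟩ := ih fun a ha => h a (Finset.mem_insert_of_mem ha)
    refine ⟨min r (e b), lt_min hr (h b (Finset.mem_insert_self b I)), fun a ha => ?_⟩
    rcases Finset.mem_insert.1 ha with rfl | ha
    · exact min_le_right _ _
    · exact (min_le_left _ _).trans (h2 a ha)

theorem basis (U : Set (ℝ → Circle)) (hU : IsOpen U) (x : ℝ → Circle) (hx : x ∈ U) :
    ∃ (F : Finset ℝ) (r : ℝ), 0 < r ∧ O (F, x, r) ⊆ U := by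
  obtain ⟨I, u, hu, hI⟩ := isOpen_pi_iff.1 hU x hx
  have h1 : ∀ a : ℝ, ∃ e : ℝ, a ∈ I → 0 < e ∧ Metric.ball (x a) e ⊆ u a := by
    intro a
    by_cases ha : a ∈ I
    · obtain ⟨e, he, he2⟩ := Metric.isOpen_iff.1 (hu a ha).1 (x a) (hu a ha).2
      exact ⟨e, fun _ => ⟨he, he2⟩⟩
    · exact ⟨0, fun h => absurd h ha⟩
  choose e he using h1
  obtain ⟨r, hr, hr2⟩ := exists_pos I e fun a ha => (he a ha).1
  refine ⟨I, r, hr, fun w hw => hI fun a ha => (he a ha).2 ?_⟩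
  exact lt_of_lt_of_le (hw a ha) (hr2 a ha)

/-- small oscillation -/
def Osc (D : Set (ℝ → Circle)) (f : ↥D → ℝ) (n : ℕ) (U : Set (ℝ → Circle)) : Prop :=
  ∀ a b : ↥D, (a : ℝ → Circle) ∈ U → (b : ℝ → Circle) ∈ U → |f a - f b| ≤ 1 / ((n : ℝ) + 1)

theorem osc_basis (D : Set (ℝ → Circle)) (f : ↥D → ℝ) (hf : Continuous f) (n : ℕ) (x : ↥D)
    (U : Set (ℝ → Circle)) (hU : IsOpen U) (hx : (x : ℝ → Circle) ∈ U) :
    ∃ (F : Finset ℝ) (r : ℝ), 0 < r ∧ O (F, (x : ℝ → Circle), r) ⊆ U ∧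
      Osc D f n (O (F, (x : ℝ → Circle), r)) := by
  have hn : (0 : ℝ) < 1 / ((n : ℝ) + 1) := by positivity
  have h1 : IsOpen (f ⁻¹' Metric.ball (f x) (1 / ((n : ℝ) + 1) / 2)) :=
    Metric.isOpen_ball.preimage hf
  obtain ⟨W, hW, hW2⟩ := isOpen_induced_iff.1 h1
  have hxW : (x : ℝ → Circle) ∈ W := by
    have : x ∈ f ⁻¹' Metric.ball (f x) (1 / ((n : ℝ) + 1) / 2) := Metric.mem_ball_self (by positivity)
    rw [← hW2] at this
    exact this
  obtain ⟨F, r, hr, hF⟩ := basis (U ∩ W) (hU.inter hW) x ⟨hx, hxW⟩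
  refine ⟨F, r, hr, fun w hw => (hF hw).1, fun a b ha hb => ?_⟩
  have hmem : ∀ a : ↥D, (a : ℝ → Circle) ∈ O (F, (x : ℝ → Circle), r) →
      dist (f a) (f x) < 1 / ((n : ℝ) + 1) / 2 := by
    intro a ha
    have : a ∈ f ⁻¹' Metric.ball (f x) (1 / ((n : ℝ) + 1) / 2) := by
      rw [← hW2]; exact (hF ha).2
    exact this
  have h3 := hmem a ha
  have h4 := hmem b hb
  rw [Real.dist_eq] at h3 h4
  have h5 : |f a - f b| ≤ |f a - f x| + |f b - f x| := by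
    have := abs_sub_le (f a) (f x) (f b)
    rwa [abs_sub_comm (f x) (f b)] at this
  linarith

/-- a maximal disjoint family -/
theorem max_fam (Q : Set (ℝ → Circle) → Prop) (hQ : ∀ U, Q U → U.Nonempty) :
    ∃ 𝒰 : Set (Set (ℝ → Circle)), (∀ U ∈ 𝒰, Q U) ∧ 𝒰.PairwiseDisjoint id ∧
      ∀ V, Q V → ∃ P ∈ 𝒰, (P ∩ V).Nonempty := by
  obtain ⟨m, hm⟩ := zorn_subset {𝒰 : Set (Set (ℝ → Circle)) | (∀ U ∈ 𝒰, Q U) ∧
    𝒰.PairwiseDisjoint id} (by
      intro c hc hch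
      refine ⟨⋃₀ c, ⟨fun U hU => ?_, ?_⟩, fun s hs => Set.subset_sUnion_of_mem hs⟩
      · obtain ⟨s, hs, hU⟩ := hU
        exact (hc hs).1 U hU
      · have hd : DirectedOn (· ⊆ ·) c := hch.directedOn
        exact (Set.pairwise_sUnion hd).2 fun s hs => (hc hs).2)
  refine ⟨m, hm.prop.1, hm.prop.2, fun V hV => ?_⟩
  by_contra hcon
  push Not at hcon
  have h1 : insert V m ∈ {𝒰 : Set (Set (ℝ → Circle)) | (∀ U ∈ 𝒰, Q U) ∧
      𝒰.PairwiseDisjoint id} := by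
    refine ⟨fun U hU => ?_, ?_⟩
    · rcases hU with rfl | hU
      · exact hV
      · exact hm.prop.1 U hU
    · refine hm.prop.2.insert fun P hP _ => ?_
      show Disjoint V P
      rw [Set.disjoint_iff_inter_eq_empty, Set.inter_comm]
      exact hcon P hP
  have h2 : V ∈ m := hm.le_of_ge h1 (Set.subset_insert V m) (Set.mem_insert V m)
  have h3 := hcon V h2
  rw [Set.inter_self] at h3
  exact (hQ V hV).ne_empty h3

theorem fac : S_CCC → S_FAC := by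
  intro hccc D hD f hf
  have h1 : ∀ n : ℕ, ∃ 𝒰 : Set (Set (ℝ → Circle)),
      (∀ U ∈ 𝒰, U.Nonempty ∧ Osc D f n U ∧ ∃ p : T, U = O p) ∧ 𝒰.PairwiseDisjoint id ∧
      ∀ V, (V.Nonempty ∧ Osc D f n V ∧ ∃ p : T, V = O p) → ∃ P ∈ 𝒰, (P ∩ V).Nonempty :=
    fun n => max_fam (fun U => U.Nonempty ∧ Osc D f n U ∧ ∃ p : T, U = O p) fun U h => h.1
  choose 𝒰 hU1 hU2 hU3 using h1
  have hcount : ∀ n, (𝒰 n).Countable := fun n => hccc (𝒰 n) (fun U hU => by
    obtain ⟨hne, -, p, rfl⟩ := hU1 n U hU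
    exact ⟨O_open p, hne⟩) (hU2 n)
  have hdesc : ∀ U : Set (ℝ → Circle), ∃ p : T, (∃ p : T, U = O p) → U = O p := by
    intro U
    by_cases h : ∃ p : T, U = O p
    · obtain ⟨p, hp⟩ := h; exact ⟨p, fun _ => hp⟩
    · exact ⟨(∅, fun _ => 1, 0), fun h' => absurd h' h⟩
  choose desc hdesc using hdesc
  refine ⟨⋃ n, ⋃ U ∈ 𝒰 n, ((desc U).1 : Set ℝ), ?_, ?_⟩
  · exact Set.countable_iUnion fun n => (hcount n).biUnion fun U _ => (desc U).1.countable_toSet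
  · intro x ε hε
    set A : Set ℝ := ⋃ n, ⋃ U ∈ 𝒰 n, ((desc U).1 : Set ℝ) with hA
    obtain ⟨n, hn⟩ := exists_nat_gt (3 / ε)
    have hn1 : (0 : ℝ) < (n : ℝ) + 1 := by positivity
    have hn3 : 3 * (1 / ((n : ℝ) + 1)) < ε := by
      rw [mul_one_div, div_lt_iff₀ hn1]
      rw [div_lt_iff₀ hε] at hn
      nlinarith
    obtain ⟨F0, δ, hδ, -, hosc⟩ := osc_basis D f hf n x Set.univ isOpen_univ (Set.mem_univ _)
    refine ⟨F0.filter (fun β => β ∈ A), δ, fun β hβ => (Finset.mem_filter.1 hβ).2, hδ, ?_⟩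
    intro y hy
    have hyU : (y : ℝ → Circle) ∈ O (F0.filter (fun β => β ∈ A), (x : ℝ → Circle), δ) := hy
    obtain ⟨F', δ', hδ', hsub, hosc'⟩ := osc_basis D f hf n y _ (O_open _) hyU
    have hyO : (y : ℝ → Circle) ∈ O (F', (y : ℝ → Circle), δ') := by
      intro β _
      simpa using hδ'
    obtain ⟨P, hP, w, hwP, hwO⟩ := hU3 n _ ⟨⟨_, hyO⟩, hosc', ⟨_, rfl⟩⟩
    obtain ⟨-, hPosc, hPd⟩ := hU1 n P hP
    have hPe := hdesc P hPd
    have hPA : ∀ β ∈ (desc P).1, β ∈ A := by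
      intro β hβ
      rw [hA]
      exact Set.mem_iUnion.2 ⟨n, Set.mem_iUnion₂.2 ⟨P, hP, hβ⟩⟩
    let w' : ℝ → Circle := fun β => if β ∈ A then w β else (x : ℝ → Circle) β
    have hw'P : w' ∈ P := by
      rw [hPe] at hwP ⊢
      intro β hβ
      have : w' β = w β := if_pos (hPA β hβ)
      rw [this]
      exact hwP β hβ
    have hw'O : w' ∈ O (F0, (x : ℝ → Circle), δ) := by
      intro β hβ
      by_cases hb : β ∈ A
      · have : w' β = w β := if_pos hb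
        rw [this]
        exact hsub hwO β (Finset.mem_filter.2 ⟨hβ, hb⟩)
      · have : w' β = (x : ℝ → Circle) β := if_neg hb
        rw [this]
        simpa using hδ
    have hPo : IsOpen P := by rw [hPe]; exact O_open _
    obtain ⟨a, ⟨haP, haO⟩, haD⟩ := hD.inter_open_nonempty _ (hPo.inter (O_open _)) ⟨w', hw'P, hw'O⟩
    obtain ⟨b, ⟨hbP, hbO⟩, hbD⟩ := hD.inter_open_nonempty _ (hPo.inter (O_open _)) ⟨w, hwP, hwO⟩
    have hxO : (x : ℝ → Circle) ∈ O (F0, (x : ℝ → Circle), δ) := by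
      intro β _
      simpa using hδ
    have e1 := hosc' y ⟨b, hbD⟩ hyO hbO
    have e2 := hPosc ⟨b, hbD⟩ ⟨a, haD⟩ hbP haP
    have e3 := hosc ⟨a, haD⟩ x haO hxO
    have e4 : |f y - f x| ≤ |f y - f ⟨b, hbD⟩| + (|f ⟨b, hbD⟩ - f ⟨a, haD⟩| + |f ⟨a, haD⟩ - f x|) := by
      have t1 := abs_sub_le (f y) (f ⟨b, hbD⟩) (f x)
      have t2 := abs_sub_le (f ⟨b, hbD⟩) (f ⟨a, haD⟩) (f x)
      linarith
    linarith

end

end Pool.Agent.W723.SQ
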